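import Pool.Agent.W900.CH.NELev
import Pool.Agent.W900.CH.Hard

/-!
# How many strings of a random oracle have to be changed to make the sparse set conjecture fail?

The sparse set conjecture (for Turing-hard sets) says that `P = NP` if some sparse set is hard for
`NP` under polynomial-time Turing reductions.

The number of changes is measured by a function `g`: the oracle `A` is obtained from `O` by changing,
for all large `n`, at most `g n` of the strings of length at most `n`. If `g n ≤ 2 ^ (n ^ ε)` for
every `ε > 0` and infinitely many `n`, then the conjecture holds relative to `A`, because no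
sparse set is hard for `NP^A` under polynomial-time Turing reductions relative to `A`, for almost
every oracle `O` and all oracles `A` that are obtained from `O` by at most `g` changes, however these
changes depend on `O`.
Otherwise every oracle `O` can be changed, by at most `g` changes, into an oracle `A`
relative to which the conjecture fails: `P^A ≠ NP^A` (even `P^A ≠ ZPP^A`), but some sparse set is
hard for `NP^A`, and even for `EXP^A`.

So the threshold is exactly at the functions which are not subexponential.
-/

set_option autoImplicit false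

namespace Pool.Agent.Results.MP_634427_lc.ChangedStrings

open Pool.Agent.NPC Pool.Agent.H620R2.Gauge Pool.Agent.W900.CH
open Pool.Agent.W900.SP (join)
open Pool.Agent.H628R3.RO (randomOracle)
open MeasureTheory

theorem result (g : ℕ → ℝ) :
    ((∀ ε : ℝ, 0 < ε → ∃ᶠ n : ℕ in Filter.atTop, g n ≤ 2 ^ (n : ℝ) ^ ε) →
      ∀ᵐ O ∂randomOracle, ∀ A : Oracle, Close g O A →
        ∀ S : Oracle, Sparse S → ∃ L, IsNP A L ∧ ¬ IsP (join A S) L) ∧
    ((¬ ∀ ε : ℝ, 0 < ε → ∃ᶠ n : ℕ in Filter.atTop, g n ≤ 2 ^ (n : ℝ) ^ ε) →
      ∀ O : Oracle, ∃ A : Oracle, Close g O A ∧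
        (∃ L, IsNP A L ∧ ¬ IsP A L) ∧ (∃ L, IsZPP A L ∧ ¬ IsP A L) ∧
        ∃ S : Oracle, Sparse S ∧ (∀ L, IsNP A L → IsP (join A S) L) ∧
          ∀ L, IsEXP A L → IsP (join A S) L) := by
  refine ⟨fun hg => ?_, fun hg O => ?_⟩
  · filter_upwards [ae_coNP hg] with O hO A hA S hS
    obtain ⟨L, h1, h2⟩ := hO A hA
    exact ⟨L, h1, fun h => h2 (advice_of_sparse hS h).compl_np⟩
  · obtain ⟨A, h1, h2, L, h3, h4⟩ := exists_close_ZPP hg O
    obtain ⟨S, hS, h5⟩ := sparse_hard (A := A) (C := {L | IsNP A L} ∪ {L | IsEXP A L})
      ((countable_np A).union (countable_exp A)) (by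
        rintro L (hL | hL)
        · exact zpp_advice (h2 L (Or.inr (show IsNP A L from hL).isPSPACE))
        · exact zpp_advice (h2 L (Or.inl hL)))
    exact ⟨A, h1, ⟨L, h3.isNP, h4⟩, ⟨L, h3, h4⟩, S, hS, fun L hL => h5 L (Or.inl hL),
      fun L hL => h5 L (Or.inr hL)⟩

end Pool.Agent.Results.MP_634427_lc.ChangedStrings
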