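import Pool.Agent.W900.DJ.Low
import Pool.Agent.W900.DJ.Upp

/-!
# How dense are the Turing-hard sets for `NP` relative to a random oracle?

We determine the densities of the sets that are Turing-hard for `NP`, or for a level of the
polynomial hierarchy, or for `PSPACE`, relative to a random oracle. The set `S` is joined to the
oracle `O` at the strings which begin with `10`: the oracle `plug O S` has the string `10q` iff
`q ∈ S`, and it agrees with `O` on all strings which do not begin with `10`; `plug O ∅` is the
random oracle alone. The density is measured by the census function, compared with a function `c`: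

* if for every `ε > 0` there are infinitely many `n` with `c n ≤ 2 ^ (n ^ ε)`, then for almost every
  oracle `O` and every `k` some set in `Σ_{k+1}` relative to `plug O ∅` is not in `Σ_k` relative to
  `plug O S`, even with polynomial advice, for all sets `S` with `census S n ≤ c n` for all large
  `n`; so (`k = 0`) no such set is Turing-hard for `NP`, and no such `S` makes the polynomial
  hierarchy collapse;
* otherwise every oracle `O` has such a set `S` with `PSPACE = P` relative to `plug O S`.
-/

set_option autoImplicit false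

namespace Pool.Agent.Results.MP_634427_lc.HardSetDensity

open Filter MeasureTheory Pool.Agent.NPC Pool.Agent.H620R2.Gauge
open Pool.Agent.W900.CH (census)
open Pool.Agent.W900.DJ (plug)
open Pool.Agent.H591R3.PHG (IsSig IsSigPoly)
open Pool.Agent.H628R3.RO (randomOracle)

theorem result (c : ℕ → ℝ) :
    ((∀ ε : ℝ, 0 < ε → ∃ᶠ n : ℕ in atTop, c n ≤ 2 ^ (n : ℝ) ^ ε) →
      ∀ᵐ O ∂randomOracle, ∀ k, ∃ L, IsSig (plug O ∅) (k + 1) L ∧
        ∀ S : Set (List Bool), (∀ᶠ n : ℕ in atTop, (census S n : ℝ) ≤ c n) →
          ¬ IsSigPoly (plug O S) k L) ∧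
    ((¬ ∀ ε : ℝ, 0 < ε → ∃ᶠ n : ℕ in atTop, c n ≤ 2 ^ (n : ℝ) ^ ε) →
      ∀ O : Oracle, ∃ S : Set (List Bool), (∀ᶠ n : ℕ in atTop, (census S n : ℝ) ≤ c n) ∧
        ∀ L, IsPSPACE (plug O S) L → IsP (plug O S) L) :=
  ⟨fun hc => Pool.Agent.W900.DJ.ae_low hc, fun hc O => Pool.Agent.W900.DJ.exists_upp hc O⟩

end Pool.Agent.Results.MP_634427_lc.HardSetDensity
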