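import Mathlib
import Pool.Agent.H592R3.Defs
import Pool.Agent.W964.Wd.Sp.Defs
import Pool.Agent.W964.Wd.Sp.Main
import Pool.Agent.W964.Wd.Gen.Asym

/-!
The sparse set conjecture for parallel Turing reductions, computed by ideal parallel random access
machines (priority concurrent writing, concurrent searching of lists of cells, arbitrary
instruction set, unbounded words, unbounded memory, different programs for different processors)
in which every processor asks an oracle in every step: no set with few strings of each length is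
hard for NP.
-/

set_option autoImplicit false

open SmallDepth Finset Filter Pool.Agent.W964.Wd

namespace Pool.Agent.Results.MP_634427_lc.ParallelReductions

/-- 1. For every `ε > 0` and `K` there is `C > 0` such that the following holds for `n ≥ 2`
variables, `T ≥ 1` steps, width `C T log n ≤ w ≤ n` and `M ≥ n 2 ^ w` clauses. Let `R` be a
randomized parallel oracle machine with `P` processors and lists of length at most `2 ^ (K n)`
that asks strings of length at most `k`, and whose oracles contain at most `D ≤ 2 ^ (K n)` strings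
of every length at most `k`. If `P (1 + D k) ≤ 2 ^ ((1 - ε) n)`, then there is a formula with `n`
variables, `M` clauses and width at most `w` for which `R` gives after `T` steps the right answer
to the question whether it is satisfiable with probability at most `1 / 2 + 2 ^ (-w / C)`.

2. For `0 < δ < 2`, every `K` and every number of steps `T n = o (n / log n)` there are a width
`w n = O (T n log n) = o (n)` and a number of clauses `M n ≤ n ^ O(T n) = 2 ^ o(n)` such that
randomized parallel oracle machines with lists of length at most `2 ^ (K n)` for which `P (1 + D k)`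
is at most `(2 - δ) ^ n` times a polynomial in `M n` do not decide in `T n` steps with error
probability at most `1 / 3` whether a formula with `n` variables, `M n` clauses and width at most
`w n` is satisfiable, for all large `n`. -/
theorem result :
    (∀ (ε : ℝ) (K : ℕ), 0 < ε → ∃ C : ℝ, 0 < C ∧
      ∀ n T w M : ℕ, 2 ≤ n → 1 ≤ T → C * (T * Real.log n) ≤ w → w ≤ n → n * 2 ^ w ≤ M →
      ∀ (P k D : ℕ) (R : ROMachine Bool (Fin M × Fin n × Bool) P),
        ((P * (1 + D * k) : ℕ) : ℝ) ≤ 2 ^ ((1 - ε) * n) → D ≤ 2 ^ (K * n) →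
        (∀ ω, (R.mach ω).Lists (2 ^ (K * n)) ∧ (R.mach ω).Sparse k D) →
        ∃ x, WidthLe x w ∧
          R.success T x (∃ α, Models x α) ≤ 1 / 2 + (2 : ℝ) ^ (-((w : ℝ) / C))) ∧
    (∀ (δ : ℝ) (K : ℕ), 0 < δ → δ < 2 → ∀ T : ℕ → ℕ, (∀ n, 1 ≤ T n) →
      (fun n : ℕ => (T n : ℝ) * Real.log n) =o[atTop] (fun n : ℕ => (n : ℝ)) →
      ∃ w M : ℕ → ℕ, (∃ C : ℝ, ∀ n, 2 ≤ n → (w n : ℝ) ≤ C * (T n * Real.log n) ∧
          (M n : ℝ) ≤ (n : ℝ) ^ (C * T n)) ∧
        ∀ c e : ℕ, ∀ᶠ n : ℕ in atTop,
          ∀ (P k D : ℕ) (R : ROMachine Bool (Fin (M n) × Fin n × Bool) P),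
            ((P * (1 + D * k) : ℕ) : ℝ) ≤ (2 - δ) ^ n * (c * (M n : ℝ) ^ e) → D ≤ 2 ^ (K * n) →
            (∀ ω, (R.mach ω).Lists (2 ^ (K * n)) ∧ (R.mach ω).Sparse k D) →
            ∃ x, WidthLe x (w n) ∧ R.success (T n) x (∃ α, Models x α) < 2 / 3) := by
  refine ⟨fun ε K hε => sparse_rand ε hε K, fun δ K hδ hδ2 T hT hTo => ?_⟩
  obtain ⟨ε, hε, H⟩ := asym δ hδ hδ2
  obtain ⟨C, hC, HC⟩ := sparse_rand ε hε K
  obtain ⟨w, hw, hA⟩ := H C hC T hT hTo
  refine ⟨w, fun n => n * 2 ^ w n, hw, fun c e => ?_⟩
  filter_upwards [hA c e] with n hn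
  obtain ⟨h1, h2, h3, h4, _, h6⟩ := hn
  intro P k D R hP hD hR
  obtain ⟨x, hx1, hx2⟩ := HC n (T n) (w n) (n * 2 ^ w n) h1 (hT n) h2 h3 le_rfl P k D R
    (hP.trans h4) hD hR
  refine ⟨x, hx1, lt_of_le_of_lt hx2 ?_⟩
  linarith

end Pool.Agent.Results.MP_634427_lc.ParallelReductions
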